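import Pool.Agent.Helper53.KC.Goals

set_option autoImplicit false

open Finset

namespace Pool.Agent.Helper8.KC

open Pool.Agent.Helper53.KC

theorem card_le {n : ℕ} (W X Y : Finset (Fin n)) (h : (Y \ X).card ≤ 1) :
    (Y ∩ W).card ≤ (X ∩ W).card + 1 := by
  have h1 : Y ∩ W ⊆ (X ∩ W) ∪ (Y \ X) := by
    intro v hv
    simp only [mem_inter, mem_union, mem_sdiff] at *
    by_cases hx : v ∈ X
    · exact Or.inl ⟨hx, hv.2⟩
    · exact Or.inr ⟨hv.1, hx⟩
  have h2 := card_le_card h1
  have h3 := card_union_le (X ∩ W) (Y \ X)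
  omega

theorem sepn : SepnStmt := by
  intro n r a j W X Y hX hY hadj h
  obtain ⟨h1, h2⟩ := hadj
  have e1 : (Y \ X).card ≤ 1 := by
    have := card_sdiff_add_card_inter Y X
    rw [inter_comm] at this
    omega
  have e2 : (X \ Y).card ≤ 1 := by
    have := card_sdiff_add_card_inter X Y
    omega
  have h3 := card_le W X Y e1
  have h4 := card_le W Y X e2
  unfold DS
  rw [mem_filter]
  refine ⟨hY, ?_⟩
  omega

end Pool.Agent.Helper8.KC
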